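import Pool.Agent.LAT.StmtsC

/-!
# OPT: the largest maximizer
-/

set_option autoImplicit false

namespace Pool.Agent.LAT.H45

open Matrix

theorem opt (phs : PhsStmt) (phf : PhfStmt) : OptStmt := by
  intro m L D
  obtain ⟨hbot, hnn, -, hsub⟩ := phs m D
  have hfin := phf m L D
  have hS0 : (⊥ : Submodule ℤ (Fin m → ℤ)) ∈ {M | M ≤ L ∧ 1 ≤ ph D M} := ⟨bot_le, hbot.ge⟩
  obtain ⟨M₀, hM₀, hmax₀⟩ := Set.exists_max_image _ (fun M => ph D M) hfin ⟨_, hS0⟩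
  have hc1 : 1 ≤ ph D M₀ := hM₀.2
  have hle : ∀ N, N ≤ L → ph D N ≤ ph D M₀ := by
    intro N hN
    rcases le_or_gt 1 (ph D N) with h | h
    · exact hmax₀ N ⟨hN, h⟩
    · exact h.le.trans hc1
  have hTfin : {M | M ≤ L ∧ ph D M = ph D M₀}.Finite :=
    hfin.subset fun M hM => ⟨hM.1, by rw [hM.2]; exact hc1⟩
  obtain ⟨M, hM⟩ := hTfin.exists_maximal ⟨M₀, hM₀.1, rfl⟩
  have hMc : ph D M = ph D M₀ := hM.prop.2
  have hup : ∀ N, M < N → N ≤ L → ph D N < ph D M := by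
    intro N hN hNL
    refine lt_of_le_of_ne ((hle N hNL).trans hMc.ge) ?_
    intro h
    exact hM.not_gt (y := N) ⟨hNL, h.trans hMc⟩ hN
  refine ⟨M, ⟨hM.prop.1, hup, fun N hN => (hle N (hN.le.trans hM.prop.1)).trans hMc.ge⟩,
    hMc ▸ hc1, ?_⟩
  intro M' hM'
  have h1 : 1 ≤ ph D M' := by
    rcases eq_or_ne M' ⊥ with h | h
    · rw [h]
      exact hbot.ge
    · have := hM'.down ⊥ (bot_lt_iff_ne_bot.2 h)
      rwa [hbot] at this
  have h2 : ph D (M' ⊓ M) ≤ ph D M' := by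
    rcases eq_or_lt_of_le (inf_le_left : M' ⊓ M ≤ M') with h | h
    · rw [h]
    · exact hM'.down _ h
  have h3 : ph D M' * ph D M ≤ ph D M' * ph D (M' ⊔ M) :=
    (hsub M' M).trans (mul_le_mul_of_nonneg_right h2 (hnn _))
  have h4 : ph D M ≤ ph D (M' ⊔ M) := le_of_mul_le_mul_left h3 (by linarith)
  have h5 : M' ≤ M := by
    by_contra h
    have h6 : M < M' ⊔ M := right_lt_sup.2 h
    exact absurd h4 (not_le.2 (hup _ h6 (sup_le hM'.le hM.prop.1)))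
  rcases eq_or_lt_of_le h5 with h | h
  · exact h
  · have h6 := hM'.up M h hM.prop.1
    have h7 := hle M' hM'.le
    rw [← hMc] at h7
    exact absurd h7 (not_le.2 h6)

end Pool.Agent.LAT.H45
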